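import Pool.Agent.Helper28.NO.Goals

/-!
# Packet AG: weighted AM-GM and convexity between even integers
-/

namespace Pool.Agent.Helper90.NO

open MeasureTheory Set
open Pool.Agent.Helper28.NO

/-- product of two admissible functions with values in `[0,1]` -/
lemma ok_mul {T g : ℝ → ℝ} (HT : Ok T) (Hg : Ok g) (T0 : ∀ t, 0 ≤ T t) (g0 : ∀ t, 0 ≤ g t) :
    Ok (fun t => T t * g t) := by
  have T1 : ∀ t, T t ≤ 1 := fun t => (abs_le.1 (HT.abs_le t)).2
  have g1 : ∀ t, g t ≤ 1 := fun t => (abs_le.1 (Hg.abs_le t)).2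
  refine ⟨HT.meas.mul Hg.meas, fun t => ?_, ?_⟩
  · rw [abs_of_nonneg (mul_nonneg (T0 t) (g0 t))]
    exact mul_le_one₀ (T1 t) (g0 t) (g1 t)
  · refine int_of_le (h₁ := fun t => T t + g t - 1) ?_ (HT.meas.mul Hg.meas) (fun t _ => ?_)
      (fun t _ => mul_le_one₀ (T1 t) (g0 t) (g1 t))
    · have h3 : IntegrableOn (fun t => (1 - T t) / t ^ 2 + (1 - g t) / t ^ 2) (Ioi 0) :=
        HT.int.add Hg.int
      refine h3.congr_fun (fun t _ => ?_) measurableSet_Ioi
      show (1 - T t) / t ^ 2 + (1 - g t) / t ^ 2 = (1 - (T t + g t - 1)) / t ^ 2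
      rw [← add_div]
      congr 1
      ring
    · have : 0 ≤ (1 - T t) * (1 - g t) :=
        mul_nonneg (by linarith [T1 t]) (by linarith [g1 t])
      nlinarith

/-- convexity of `s ↦ x ^ s` between two consecutive even integers -/
lemma rpow_le_even {x : ℝ} (hx : 0 ≤ x) {lam : ℝ} (hl : 0 < lam) :
    x ^ (1 / lam) ≤ (1 - (1 / (2 * lam) - ⌊1 / (2 * lam)⌋₊)) * x ^ (2 * ⌊1 / (2 * lam)⌋₊) +
      (1 / (2 * lam) - ⌊1 / (2 * lam)⌋₊) * x ^ (2 * ⌊1 / (2 * lam)⌋₊ + 2) := by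
  set k := ⌊1 / (2 * lam)⌋₊ with hk
  set th : ℝ := 1 / (2 * lam) - k with hth
  have h0 : (0 : ℝ) ≤ 1 / (2 * lam) := by positivity
  have th0 : 0 ≤ th := by
    have := Nat.floor_le h0
    rw [hth]
    linarith
  have th1 : th ≤ 1 := by
    have := (Nat.lt_floor_add_one (1 / (2 * lam))).le
    rw [hth]
    linarith
  have e : 1 / lam = 2 * k + 2 * th := by
    rw [hth]
    field_simp
    ring
  rcases hx.eq_or_lt with h | h
  · rw [← h, Real.zero_rpow (by positivity)]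
    have : (0 : ℝ) ≤ 1 - th := by linarith
    positivity
  · have g := Real.geom_mean_le_arith_mean2_weighted (w₁ := 1 - th) (w₂ := th)
      (p₁ := x ^ (2 * k)) (p₂ := x ^ (2 * k + 2)) (by linarith) th0 (by positivity) (by positivity)
      (by ring)
    refine le_trans (le_of_eq ?_) g
    rw [← Real.rpow_natCast x (2 * k), ← Real.rpow_natCast x (2 * k + 2), ← Real.rpow_mul hx,
      ← Real.rpow_mul hx, ← Real.rpow_add h, e]
    congr 1
    push_cast
    ring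

lemma even_abs_pow (x : ℝ) (k : ℕ) : |x| ^ (2 * k) = x ^ (2 * k) := by
  rw [pow_mul, pow_mul, sq_abs]

/-- pointwise weighted AM-GM -/
lemma pointwise {ι : Type*} (S : Finset ι) (y lam : ι → ℝ)
    (hlam : ∀ i ∈ S, 0 < lam i) (hsum : ∑ i ∈ S, lam i = 1) :
    ∏ i ∈ S, |y i| ≤ ∑ i ∈ S, lam i *
      ((1 - (1 / (2 * lam i) - ⌊1 / (2 * lam i)⌋₊)) * y i ^ (2 * ⌊1 / (2 * lam i)⌋₊) +
        (1 / (2 * lam i) - ⌊1 / (2 * lam i)⌋₊) * y i ^ (2 * ⌊1 / (2 * lam i)⌋₊ + 2)) := by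
  have h := Real.geom_mean_le_arith_mean_weighted S lam (fun i => |y i| ^ (1 / lam i))
    (fun i hi => (hlam i hi).le) hsum (fun i _ => Real.rpow_nonneg (abs_nonneg _) _)
  have e : ∏ i ∈ S, (|y i| ^ (1 / lam i)) ^ lam i = ∏ i ∈ S, |y i| := by
    refine Finset.prod_congr rfl fun i hi => ?_
    rw [← Real.rpow_mul (abs_nonneg _), one_div, inv_mul_cancel₀ (hlam i hi).ne', Real.rpow_one]
  rw [e] at h
  refine h.trans (Finset.sum_le_sum fun i hi => ?_)
  refine mul_le_mul_of_nonneg_left ?_ (hlam i hi).le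
  have h2 := rpow_le_even (abs_nonneg (y i)) (hlam i hi)
  refine h2.trans (le_of_eq ?_)
  have e2 : ∀ k : ℕ, |y i| ^ (2 * k + 2) = y i ^ (2 * k + 2) := fun k => by
    have := even_abs_pow (y i) (k + 1)
    rwa [mul_add, mul_one] at this
  rw [even_abs_pow, e2]

theorem goalAG : GAG := by
  intro μ hμ hint ι S u lam f T mT hfT hT1 okf okprod hu hlam hsum
  have T0 : ∀ t, 0 ≤ T t := fun t => (abs_nonneg _).trans (hfT t)
  have okT : Ok T := ok_of_le okf mT (fun t => (le_abs_self _).trans (hfT t)) hT1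
  have okg : ∀ i k, Ok (fun t => ph μ (u i * t) ^ (2 * k)) := by
    intro i k
    obtain ⟨ν, hν⟩ := (isLaw_ph hint (u i)).pow (2 * k)
    exact hν.ok
  have g0 : ∀ i k t, 0 ≤ ph μ (u i * t) ^ (2 * k) := by
    intro i k t
    rw [pow_mul]
    positivity
  have okA : ∀ i k, Ok (fun t => T t * ph μ (u i * t) ^ (2 * k)) := fun i k =>
    ok_mul okT (okg i k) T0 (g0 i k)
  have okB : ∀ i k, Ok (fun t => T t * ph μ (u i * t) ^ (2 * k + 2)) := by
    intro i k
    have := okA i (k + 1)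
    simpa only [mul_add, mul_one] using this
  have gB : ∀ i k t, 0 ≤ ph μ (u i * t) ^ (2 * k + 2) := by
    intro i k t
    have := g0 i (k + 1) t
    simpa only [mul_add, mul_one] using this
  -- the coefficients
  have th0 : ∀ i ∈ S, (0 : ℝ) ≤ 1 / (2 * lam i) - ⌊1 / (2 * lam i)⌋₊ := by
    intro i hi
    have h0 : (0 : ℝ) ≤ 1 / (2 * lam i) := by
      have := (hlam i hi).1
      positivity
    linarith [Nat.floor_le h0]
  have th1 : ∀ i ∈ S, (1 / (2 * lam i) - ⌊1 / (2 * lam i)⌋₊ : ℝ) ≤ 1 := by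
    intro i hi
    linarith [(Nat.lt_floor_add_one (1 / (2 * lam i))).le]
  set H : ι → ℝ → ℝ := fun i t =>
    (1 - (1 / (2 * lam i) - ⌊1 / (2 * lam i)⌋₊)) *
        (T t * ph μ (u i * t) ^ (2 * ⌊1 / (2 * lam i)⌋₊)) +
      (1 / (2 * lam i) - ⌊1 / (2 * lam i)⌋₊) *
        (T t * ph μ (u i * t) ^ (2 * ⌊1 / (2 * lam i)⌋₊ + 2)) with hH
  have okH : ∀ i ∈ S, Ok (H i) := by
    intro i hi
    refine ok_aff (okA i _) (okB i _) (by ring) (fun t => ?_)
    have a1 := (abs_le.1 ((okA i ⌊1 / (2 * lam i)⌋₊).abs_le t)).2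
    have b1 := (abs_le.1 ((okB i ⌊1 / (2 * lam i)⌋₊).abs_le t)).2
    have a0 := mul_nonneg (T0 t) (g0 i ⌊1 / (2 * lam i)⌋₊ t)
    have b0 := mul_nonneg (T0 t) (gB i ⌊1 / (2 * lam i)⌋₊ t)
    have c0 := th0 i hi
    have c1 := th1 i hi
    have c2 : (0 : ℝ) ≤ 1 - (1 / (2 * lam i) - ⌊1 / (2 * lam i)⌋₊) := by linarith
    rw [abs_of_nonneg (add_nonneg (mul_nonneg c2 a0) (mul_nonneg c0 b0))]
    have x1 := mul_le_mul_of_nonneg_left a1 c2
    have x2 := mul_le_mul_of_nonneg_left b1 c0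
    linarith
  have LH : ∀ i ∈ S, Lf (H i) =
      (1 - (1 / (2 * lam i) - ⌊1 / (2 * lam i)⌋₊)) *
        Lf (fun t => T t * ph μ (u i * t) ^ (2 * ⌊1 / (2 * lam i)⌋₊)) +
      (1 / (2 * lam i) - ⌊1 / (2 * lam i)⌋₊) *
        Lf (fun t => T t * ph μ (u i * t) ^ (2 * ⌊1 / (2 * lam i)⌋₊ + 2)) := by
    intro i hi
    exact Lf_aff (okA i _) (okB i _) (by ring)
  have key : Lf (fun t => ∑ i ∈ S, lam i * H i t) ≤
      Lf (fun t => f t * ∏ i ∈ S, ph μ (u i * t)) := by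
    refine Lf_anti' okprod.int (int_sum S lam H okH hsum) (fun t _ => ?_)
    have p := pointwise S (fun i => ph μ (u i * t)) lam (fun i hi => (hlam i hi).1) hsum
    calc f t * ∏ i ∈ S, ph μ (u i * t) ≤ |f t * ∏ i ∈ S, ph μ (u i * t)| := le_abs_self _
      _ = |f t| * ∏ i ∈ S, |ph μ (u i * t)| := by rw [abs_mul, Finset.abs_prod]
      _ ≤ T t * ∏ i ∈ S, |ph μ (u i * t)| :=
        mul_le_mul_of_nonneg_right (hfT t) (Finset.prod_nonneg fun i _ => abs_nonneg _)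
      _ ≤ _ := mul_le_mul_of_nonneg_left p (T0 t)
      _ = _ := by
        rw [Finset.mul_sum]
        refine Finset.sum_congr rfl fun i _ => ?_
        simp only [hH]
        ring
  rw [Lf_sum S lam H okH hsum] at key
  refine le_trans (le_of_eq ?_) key
  exact Finset.sum_congr rfl fun i hi => by rw [LH i hi]

end Pool.Agent.Helper90.NO
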