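import Pool.Agent.Helper28.NO.Goals

/-!
# Packet T: the trigonometric majorant of `|cos|`
-/

namespace Pool.Agent.Helper90.NO

open MeasureTheory Set
open Pool.Agent.Helper28.NO

lemma TT_bounds (θ : ℝ) : |Real.cos θ| ≤ TT θ ∧ TT θ ≤ 1 := by
  have h1 : Real.sin θ ^ 2 + Real.cos θ ^ 2 = 1 := Real.sin_sq_add_cos_sq θ
  set w := Real.sin θ ^ 2 with hw
  have w0 : 0 ≤ w := sq_nonneg _
  have w1 : w ≤ 1 := by nlinarith [sq_nonneg (Real.cos θ)]
  have e : TT θ = 1 - w / 2 - w ^ 2 / 8 - w ^ 3 / 16 - 5 * w ^ 4 / 128 := by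
    rw [TT, hw]
    ring
  have w2 : w ^ 2 ≤ 1 := pow_le_one₀ w0 w1
  have w3 : w ^ 3 ≤ 1 := pow_le_one₀ w0 w1
  have w4 : w ^ 4 ≤ 1 := pow_le_one₀ w0 w1
  have T0 : 0 ≤ TT θ := by
    rw [e]
    linarith
  refine ⟨?_, ?_⟩
  · refine abs_le_of_sq_le_sq ?_ T0
    have e1 : TT θ ^ 2 - (1 - w) = 7 / 128 * w ^ 5 + 7 / 512 * w ^ 6 + 5 / 1024 * w ^ 7 +
        25 / 16384 * w ^ 8 := by
      rw [e]
      ring
    have e2 : 0 ≤ 7 / 128 * w ^ 5 + 7 / 512 * w ^ 6 + 5 / 1024 * w ^ 7 +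
        25 / 16384 * w ^ 8 := by
      positivity
    linarith
  · rw [e]
    have p2 := pow_nonneg w0 2
    have p3 := pow_nonneg w0 3
    have p4 := pow_nonneg w0 4
    linarith

/-- coefficients of `TT` -/
noncomputable def cT : Fin 5 → ℝ := ![11025 / 16384, 1470 / 4096, -147 / 4096, 9 / 2048, -5 / 16384]

/-- frequencies -/
def kT : Fin 5 → ℝ := ![0, 2, 4, 6, 8]

lemma cT_sum : ∑ j, cT j = 1 := by
  simp [cT, Fin.sum_univ_five]
  norm_num

lemma TT_eq (x : ℝ) : TT x = ∑ j, cT j * Real.cos (kT j * x) := by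
  have c2 : Real.cos (2 * x) = 1 - 2 * Real.sin x ^ 2 := by
    rw [Real.cos_two_mul]
    nlinarith [Real.sin_sq_add_cos_sq x]
  have c4 : Real.cos (4 * x) = 2 * (1 - 2 * Real.sin x ^ 2) ^ 2 - 1 := by
    rw [show 4 * x = 2 * (2 * x) by ring, Real.cos_two_mul, c2]
  have c6 : Real.cos (6 * x) = 4 * (1 - 2 * Real.sin x ^ 2) ^ 3 - 3 * (1 - 2 * Real.sin x ^ 2) := by
    rw [show 6 * x = 3 * (2 * x) by ring, Real.cos_three_mul, c2]
  have c8 : Real.cos (8 * x) = 2 * (2 * (1 - 2 * Real.sin x ^ 2) ^ 2 - 1) ^ 2 - 1 := by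
    rw [show 8 * x = 2 * (4 * x) by ring, Real.cos_two_mul, c4]
  have c0 : Real.cos (0 * x) = 1 := by simp
  rw [Fin.sum_univ_five]
  show TT x = 11025 / 16384 * Real.cos (0 * x) + 1470 / 4096 * Real.cos (2 * x) +
    -147 / 4096 * Real.cos (4 * x) + 9 / 2048 * Real.cos (6 * x) + -5 / 16384 * Real.cos (8 * x)
  rw [c0, c2, c4, c6, c8, TT]
  ring

lemma pointwise_max {a d : ℝ} (ha : 0 ≤ a) (hd : 0 ≤ d) :
    1225 / 2048 * a + 11025 / 16384 * d ≤ ∑ j, cT j * max |kT j * a| d := by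
  rw [Fin.sum_univ_five]
  show _ ≤ 11025 / 16384 * max |0 * a| d + 1470 / 4096 * max |2 * a| d +
    -147 / 4096 * max |4 * a| d + 9 / 2048 * max |6 * a| d + -5 / 16384 * max |8 * a| d
  rw [abs_of_nonneg (by positivity : (0 : ℝ) ≤ 0 * a), abs_of_nonneg (by positivity : 0 ≤ 2 * a),
    abs_of_nonneg (by positivity : 0 ≤ 4 * a), abs_of_nonneg (by positivity : 0 ≤ 6 * a),
    abs_of_nonneg (by positivity : 0 ≤ 8 * a)]
  have m0 : max (0 * a) d = d := by rw [zero_mul]; exact max_eq_right hd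
  have a1 := le_max_left (2 * a) d
  have b1 := le_max_right (2 * a) d
  have a2 := le_max_left (4 * a) d
  have b2 := le_max_right (4 * a) d
  have a3 := le_max_left (6 * a) d
  have b3 := le_max_right (6 * a) d
  have a4 := le_max_left (8 * a) d
  have b4 := le_max_right (8 * a) d
  have m1 : max (4 * a) d ≤ max (2 * a) d + 2 * a := max_le (by linarith) (by linarith)
  have m2 : max (6 * a) d ≤ max (4 * a) d + 2 * a := max_le (by linarith) (by linarith)
  have m3 : max (8 * a) d ≤ max (6 * a) d + 2 * a := max_le (by linarith) (by linarith)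
  rw [m0]
  linarith

theorem goalT : GT := by
  refine ⟨TT_bounds, fun h ν H a ha => ?_⟩
  have := H.prob
  have okj : ∀ j : Fin 5, Ok (fun t => Real.cos (kT j * a * t) * h t) := fun j => (H.main _).1
  have e : (fun t => TT (a * t) * h t) =
      fun t => ∑ j, cT j * (Real.cos (kT j * a * t) * h t) := by
    ext t
    rw [TT_eq, Finset.sum_mul]
    refine Finset.sum_congr rfl fun j _ => ?_
    rw [← mul_assoc (kT j)]
    ring
  have hL : Lf (fun t => TT (a * t) * h t) = ∑ j, cT j * ∫ x, max |kT j * a| |x| ∂ν := by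
    rw [e, Lf_sum Finset.univ cT (fun j t => Real.cos (kT j * a * t) * h t) (fun j _ => okj j)
      cT_sum]
    exact Finset.sum_congr rfl fun j _ => by rw [(H.main (kT j * a)).2]
  refine ⟨⟨?_, fun t => ?_, ?_⟩, ?_⟩
  · have : Measurable (fun t : ℝ => TT (a * t)) := by
      unfold TT
      fun_prop
    exact this.mul H.ok.meas
  · rw [abs_mul]
    have b := TT_bounds (a * t)
    have b0 : 0 ≤ TT (a * t) := (abs_nonneg _).trans b.1
    rw [abs_of_nonneg b0]
    exact mul_le_one₀ b.2 (abs_nonneg _) (H.ok.abs_le t)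
  · have := int_sum Finset.univ cT (fun j t => Real.cos (kT j * a * t) * h t)
      (fun j _ => okj j) cT_sum
    refine this.congr_fun (fun t _ => ?_) measurableSet_Ioi
    exact congrArg (fun z => (1 - z) / t ^ 2) (congrFun e t).symm
  · rw [hL, H.Lf_eq]
    have i1 : ∀ j : Fin 5, Integrable (fun x => max |kT j * a| |x|) ν := fun j =>
      integrable_max_abs H.int _
    have e1 : ∑ j, cT j * ∫ x, max |kT j * a| |x| ∂ν =
        ∫ x, ∑ j, cT j * max |kT j * a| |x| ∂ν := by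
      rw [integral_finsetSum _ (fun j _ => (i1 j).const_mul (cT j))]
      exact Finset.sum_congr rfl fun j _ => (integral_const_mul _ _).symm
    rw [e1]
    have e2 : 1225 / 2048 * a + 11025 / 16384 * ∫ x, |x| ∂ν =
        ∫ x, (1225 / 2048 * a + 11025 / 16384 * |x|) ∂ν := by
      rw [integral_add (integrable_const _) (H.int.abs.const_mul _)]
      rw [integral_const_mul (11025 / 16384 : ℝ) (fun x : ℝ => |x|)]
      simp
    rw [e2]
    refine integral_mono ((integrable_const _).add (H.int.abs.const_mul _))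
      (integrable_finsetSum _ (fun j _ => (i1 j).const_mul (cT j))) (fun x => ?_)
    exact pointwise_max ha (abs_nonneg x)

end Pool.Agent.Helper90.NO
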